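import Pool.Agent.LibQF.NormalForm

/-!
# The free objects of the class `Q` of amiable semigroups that avoid `M`

Let `X` be a set. A letter (`Let X`) is a generator `x` or a formal idempotent `[c]_s` (`Let.br s c p`)
given by a side `s` (`true` is `ℓ`, `false` is `r`), a word `c` (written in the orientation of the side:
for `s = false` it is the reversed word) and its parent `p`, the next larger idempotent (`none` is the
adjoined identity).  `LeO a b` says that `b` is `a` or an iterated parent of `a`.

`Lw s w` is the idempotent of side `s` of the word `w`. It is computed by the recursion `stepF`: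
raise the first letter that can be raised; if there is none, open the first letter if it is of side
`s` and raise again; if nothing can be raised, the value is the new idempotent `[w]_s` with parent
`L_s(up(a) v)`, `w = a v`, unless `w` splits, in which case the value is `L_s(up(a) v)`.
A letter `k` can be raised in `u k v` (`CanRaise`) if `L_s(u k')` or the idempotent of the other side
of `k' v` is below `k`, where `k'` is the parent of `k`; raising replaces `k` by `k'`.

The free algebra `FreeQ X` consists of the nonempty reduced words of canonical letters
(`Can`: `L_s(c) = [c]_s`, recursively); the product is the reduced form `nfw` of the concatenation,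
`a ↦ a_ℓ` is `L_ℓ`, `a ↦ a_r` is `L_r`.
-/

namespace Pool.Agent.Results.MP_f1bde6_al.FreeObjects

open Pool.Agent.LibQF

universe u v

/-- The free algebra of `Q` on `X` in explicit form: the nonempty reduced words of canonical letters,
with the product `nfw (a b)` and the maps `L_ℓ`, `L_r`, form an algebra of `Q` that is generated by
`X`, and every map from `X` to an algebra of `Q` extends to exactly one homomorphism. Moreover `L` is
given by its recursion, and the reduced form is the only end point of raising, in whatever order. -/
theorem result (X : Type u) :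
    ∃ (_ : Semigroup (FreeQ X)) (l r : FreeQ X → FreeQ X) (ι : X → FreeQ X),
      (∀ a b : FreeQ X, (a * b).1 = nfw (a.1 ++ b.1)) ∧
      (∀ a : FreeQ X, (l a).1 = (Lw true a.1).toList) ∧
      (∀ a : FreeQ X, (r a).1 = (Lw false a.1.reverse).toList) ∧
      (∀ x, (ι x).1 = [Let.gen x]) ∧
      InQ (FreeQ X) l r ∧
      (∀ T : Set (FreeQ X), ClosedUnder l r ι T → ∀ a, a ∈ T) ∧
      (∀ (A : Type v) [Semigroup A] (l' r' : A → A), InQ A l' r' → ∀ φ : X → A,
        ∃! f : FreeQ X → A, IsExt l r ι l' r' φ f) ∧
      (∀ (s : Bool) (w : List (Let X)), (∀ a ∈ w, Can a) → Lw s w = stepF Lw s w) ∧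
      (∀ w w' : List (Let X), (∀ a ∈ w, Can a) →
        ((Relation.ReflTransGen RaiseStep w w' ∧ ∀ w'', ¬ RaiseStep w' w'') ↔ w' = nfw w)) := by
  obtain ⟨i, l, r, ι, h1, h2, h3, h4, h5, h6, h7⟩ :=
    final_of_good.{u, v} X (Sys.good_all (theSys X)) (Sys.fs_all (theSys X))
  exact ⟨i, l, r, ι, h1, h2, h3, h4, h5, h6, h7, fun s w hw => Lw_eq s hw,
    fun w w' hw => raise_end w w' hw⟩

end Pool.Agent.Results.MP_f1bde6_al.FreeObjects
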